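import Pool.Agent.L7h31.KN.Stm

/-! Part CYD of project KN (helper31). -/

set_option autoImplicit false

namespace Pool.Agent.L7h76.KN
open Pool.Agent.L7h31.KN

variable {ι : Type} [Fintype ι] [DecidableEq ι]

theorem mem_cyl {A : Finset ι} {s y : ι → Bool} : y ∈ cyl A s ↔ ∀ i ∈ A, y i = s i := by
  simp [cyl]

theorem D_in {A : Finset ι} {s : ι → Bool} {j : ι} (hj : j ∈ A) :
    D j (ind (cyl A s)) = ind (cyl (A.erase j) s) := by
  funext y
  have h1 : y ∈ cyl A s ↔ (y j = s j ∧ y ∈ cyl (A.erase j) s) := by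
    simp only [mem_cyl, Finset.mem_erase]
    constructor
    · intro h; exact ⟨h j hj, fun i hi => h i hi.2⟩
    · rintro ⟨h0, h⟩ i hi
      by_cases hij : i = j
      · rw [hij]; exact h0
      · exact h i ⟨hij, hi⟩
  have h2 : Pool.Agent.L7h31.KN.flip j y ∈ cyl A s ↔ (¬ y j = s j ∧ y ∈ cyl (A.erase j) s) := by
    simp only [mem_cyl, Finset.mem_erase, Pool.Agent.L7h31.KN.flip]
    constructor
    · intro h
      refine ⟨?_, fun i hi => ?_⟩
      · have h3 := h j hj
        rw [Function.update_self] at h3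
        intro h4
        rw [h4] at h3
        revert h3
        cases s j <;> simp
      · have h3 := h i hi.2
        rwa [Function.update_of_ne hi.1] at h3
    · rintro ⟨h0, h⟩ i hi
      by_cases hij : i = j
      · subst hij
        rw [Function.update_self]
        revert h0
        cases y i <;> cases s i <;> simp
      · rw [Function.update_of_ne hij]; exact h i ⟨hij, hi⟩
  simp only [D, ind]
  by_cases hc : y ∈ cyl (A.erase j) s <;> by_cases hy : y j = s j
  · rw [if_pos (h1.2 ⟨hy, hc⟩), if_neg (fun h => (h2.1 h).1 hy), if_pos hc, add_zero]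
  · rw [if_neg (fun h => hy (h1.1 h).1), if_pos (h2.2 ⟨hy, hc⟩), if_pos hc, zero_add]
  · rw [if_neg (fun h => hc (h1.1 h).2), if_neg (fun h => hc (h2.1 h).2), if_neg hc, add_zero]
  · rw [if_neg (fun h => hc (h1.1 h).2), if_neg (fun h => hc (h2.1 h).2), if_neg hc, add_zero]

theorem D_out {A : Finset ι} {s : ι → Bool} {j : ι} (hj : j ∉ A) :
    D j (ind (cyl A s)) = 0 := by
  funext y
  have h2 : Pool.Agent.L7h31.KN.flip j y ∈ cyl A s ↔ y ∈ cyl A s := by
    simp only [mem_cyl, Pool.Agent.L7h31.KN.flip]
    constructor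
    · intro h i hi
      have hij : i ≠ j := fun h => hj (h ▸ hi)
      have h3 := h i hi
      rwa [Function.update_of_ne hij] at h3
    · intro h i hi
      have hij : i ≠ j := fun h => hj (h ▸ hi)
      rw [Function.update_of_ne hij]
      exact h i hi
  simp only [D, ind, Pi.zero_apply]
  by_cases hc : y ∈ cyl A s
  · rw [if_pos hc, if_pos (h2.2 hc)]; decide
  · rw [if_neg hc, if_neg (fun h => hc (h2.1 h)), add_zero]

theorem s_CYD (hADD : S_ADD) : S_CYD := by
  intro ι _ _ k
  induction k with
  | zero =>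
    intro A s hA
    have hA0 : A = ∅ := Finset.card_eq_zero.1 (Nat.le_zero.1 hA)
    subst hA0
    intro j
    exact D_out (by simp)
  | succ k ih =>
    intro A s hA j
    by_cases hj : j ∈ A
    · rw [D_in hj]
      refine ih (A.erase j) s ?_
      rw [Finset.card_erase_of_mem hj]
      omega
    · rw [D_out hj]
      exact (hADD ι k 0 0).2.1

end Pool.Agent.L7h76.KN
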